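import Pool.Agent.Lib_helper32.JO.N0

/-!
# Project JO, part B1, block BE4: the boxes
-/

set_option autoImplicit false

namespace Pool.Agent.JO

open Complex MeasureTheory Filter Topology
open UpperHalfPlane hiding I
open scoped MatrixGroups ComplexConjugate ENNReal

variable {N : ℕ} [NeZero N]

theorem boxE2_pr : BoxE2 N := fun _ hF h0 => CF_SqL hF h0

omit [NeZero N] in
theorem be4_int {F : QN N → SL(2, ℝ) → ℂ} (hF : MF F) {B : ℝ} (hB : ∀ s g, ‖F s g‖ ≤ B)
    (s : QN N) {x : ℂ} (hx : x ≠ 0) :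
    IntervalIntegrable (fun t => F s (gx x t)) volume 0 1 := by
  have h1 := (MF_borel.1 hF).2 s
  have h2 : Continuous fun t : ℝ => gx x t := by
    have h3 : ContinuousOn (fun t : ℝ => gx x t) Set.univ :=
      gx_cont.comp (f := fun t : ℝ => ((x, t) : ℂ × ℝ)) (by fun_prop) (fun t _ => hx)
    exact continuousOn_univ.1 h3
  have h4 : Measurable fun t : ℝ => F s (gx x t) := by
    let : MeasurableSpace SL(2, ℝ) := borel SL(2, ℝ)
    have : BorelSpace SL(2, ℝ) := ⟨rfl⟩
    exact Measurable.comp h1 h2.measurable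
  rw [intervalIntegrable_iff]
  refine Measure.integrableOn_of_bounded (M := B) (by simp) h4.aestronglyMeasurable ?_
  exact Filter.Eventually.of_forall fun t => hB _ _

theorem boxE4_pr : BoxE4 N := by
  intro F hF hb p hp hpN
  obtain ⟨B, hB⟩ := hb
  have hc : p.Coprime N := (Nat.Prime.coprime_iff_not_dvd hp).2 hpN
  have hp0 : p ≠ 0 := hp.ne_zero
  have hpC : (p : ℂ) ≠ 0 := Nat.cast_ne_zero.2 hp0
  have hpR : (p : ℝ) ≠ 0 := Nat.cast_ne_zero.2 hp0
  refine ⟨MF_Tm hF hc hp0, fun x v hx hv => ?_⟩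
  have hi : ∀ (s : QN N) (d : ℕ), d ∣ p ^ 2 →
      IntervalIntegrable (fun t => F s (gx (((d : ℝ) / p : ℝ) * x) t)) volume 0 1 := by
    intro s d hd
    have hd0 : d ≠ 0 := by
      rintro rfl
      have := Nat.eq_zero_of_zero_dvd hd
      exact pow_ne_zero 2 hp0 this
    refine be4_int hF hB s (mul_ne_zero ?_ hx)
    have hdR : (d : ℝ) ≠ 0 := Nat.cast_ne_zero.2 hd0
    exact_mod_cast div_ne_zero hdR hpR
  rw [CF_Tm hF.1 hc hp0 hx hi hv, Nat.divisors_prime_pow hp, Finset.sum_map]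
  simp only [Finset.sum_range_succ, Finset.sum_range_zero, Function.Embedding.coeFn_mk, pow_zero,
    pow_one, zero_add]
  have hu : (p : ZMod N) * (p : ZMod N)⁻¹ = 1 := ZMod.coe_mul_inv_eq_one p hc
  have e1 : ((((1 : ℕ) : ℝ) / p : ℝ) : ℂ) * x = x / p := by
    push_cast
    field_simp
  have e2 : (((p : ℝ) / p : ℝ) : ℂ) * x = x := by
    rw [div_self hpR]
    simp
  have e3 : ((((p ^ 2 : ℕ) : ℝ) / p : ℝ) : ℂ) * x = p * x := by
    push_cast
    field_simp
  have e4 : ((p ^ 2 : ℕ) : ZMod N) * (p : ZMod N)⁻¹ = p := by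
    push_cast
    rw [sq, mul_assoc, hu, mul_one]
  rw [e1, e2, e3, e4, hu]
  push_cast
  simp only [one_mul]
  field_simp

end Pool.Agent.JO
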