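import Pool.Agent.Lib_helper32.JO.N1

/-!
# Project JO, part B1, block ROT: rotation invariance of the measure
-/

set_option autoImplicit false

namespace Pool.Agent.JO

open Complex MeasureTheory Filter Topology
open UpperHalfPlane hiding I
open scoped MatrixGroups ComplexConjugate ENNReal

theorem rot_coe (a : ℝ) (z : ℍ) : ((kK a • z : ℍ) : ℂ) =
    ((Real.cos a : ℂ) * z + (Real.sin a : ℂ)) / (-(Real.sin a : ℂ) * z + (Real.cos a : ℂ)) := by
  rw [UpperHalfPlane.coe_specialLinearGroup_apply]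
  simp [kK]

theorem rot_den (a : ℝ) (z : ℍ) : -(Real.sin a : ℂ) * z + (Real.cos a : ℂ) ≠ 0 := by
  intro h
  have him := congrArg Complex.im h
  have hre := congrArg Complex.re h
  simp only [Complex.add_im, Complex.mul_im, Complex.neg_re, Complex.neg_im, Complex.ofReal_re,
    Complex.ofReal_im, Complex.add_re, Complex.mul_re, Complex.zero_re, Complex.zero_im] at him hre
  have hz : 0 < (z : ℂ).im := z.im_pos
  have hs : Real.sin a = 0 := by
    have : Real.sin a * (z : ℂ).im = 0 := by linarith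
    exact (mul_eq_zero.1 this).resolve_right hz.ne'
  rw [hs] at hre
  have hc : Real.cos a = 0 := by linarith
  have := Real.sin_sq_add_cos_sq a
  rw [hs, hc] at this
  norm_num at this

theorem kK_cont_pr : Continuous fun q : ℍ × ℝ => kK q.2 • q.1 := by
  rw [UpperHalfPlane.isEmbedding_coe.continuous_iff]
  have e : ((↑) : ℍ → ℂ) ∘ (fun q : ℍ × ℝ => kK q.2 • q.1) = fun q : ℍ × ℝ =>
      ((Real.cos q.2 : ℂ) * q.1 + (Real.sin q.2 : ℂ)) /
        (-(Real.sin q.2 : ℂ) * q.1 + (Real.cos q.2 : ℂ)) := by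
    funext q
    exact rot_coe q.2 q.1
  rw [e]
  have hc : Continuous (fun q : ℍ × ℝ => ((q.1 : ℍ) : ℂ)) :=
    UpperHalfPlane.continuous_coe.comp continuous_fst
  have hcos : Continuous (fun q : ℍ × ℝ => ((Real.cos q.2 : ℝ) : ℂ)) :=
    Complex.continuous_ofReal.comp (Real.continuous_cos.comp continuous_snd)
  have hsin : Continuous (fun q : ℍ × ℝ => ((Real.sin q.2 : ℝ) : ℂ)) :=
    Complex.continuous_ofReal.comp (Real.continuous_sin.comp continuous_snd)
  exact ((hcos.mul hc).add hsin).div ((hsin.neg.mul hc).add hcos) (fun q => rot_den q.2 q.1)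

theorem kK_mp_pr (a : ℝ) : MeasurePreserving (fun w : ℍ => kK a • w) volume volume := by
  exact measurePreserving_smul (Matrix.SpecialLinearGroup.mapGL ℝ (kK a)) volume

theorem rot_lint_pr {f : ℍ → ℝ≥0∞} (hf : Measurable f) :
    ∫⁻ w : ℍ, ∫⁻ a in Set.Ioc 0 (2 * Real.pi), f (kK a • w) =
      ENNReal.ofReal (2 * Real.pi) * ∫⁻ w : ℍ, f w := by
  rw [lintegral_lintegral_swap]
  · have h1 : ∀ a : ℝ, ∫⁻ w : ℍ, f (kK a • w) = ∫⁻ w : ℍ, f w := fun a =>
      (kK_mp_pr a).lintegral_comp hf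
    simp_rw [h1]
    rw [setLIntegral_const, Real.volume_Ioc, sub_zero, mul_comm]
  · exact (hf.comp kK_cont_pr.measurable).aemeasurable

end Pool.Agent.JO
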